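import Pool.Graph.R_seed8.R592.Ba.Final
import Pool.Graph.R_pool_sql_team_ae5b0c61.H42.Bau7
import Pool.Graph.R_pool_sql_team_ae5b0c61.H42.Slal1

set_option autoImplicit false

/-!
Baumgartner axioms: the covering numbers of countable sets, and functions which are eventually
different from fewer than `non(M)` given functions.
-/

namespace Pool.Agent.H633.BA

open Cardinal Set Filter Pool.Agent.R592.Ba

/-- The least number of countable subsets of `α` which cover all countable subsets of `α`. -/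
noncomputable def cofc (α : Type) : Cardinal.{0} :=
  sInf {μ | ∃ C : Set (Set α), #C = μ ∧ (∀ c ∈ C, c.Countable) ∧
    ∀ s : Set α, s.Countable → ∃ c ∈ C, s ⊆ c}

theorem cofc_spec (α : Type) : ∃ C : Set (Set α), #C = cofc α ∧ (∀ c ∈ C, c.Countable) ∧
    ∀ s : Set α, s.Countable → ∃ c ∈ C, s ⊆ c :=
  csInf_mem (s := {μ | ∃ C : Set (Set α), #C = μ ∧ (∀ c ∈ C, c.Countable) ∧
    ∀ s : Set α, s.Countable → ∃ c ∈ C, s ⊆ c})
    ⟨_, {c | c.Countable}, rfl, fun _ h => h, fun s hs => ⟨s, hs, Subset.rfl⟩⟩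

theorem cofc_le {α : Type} (C : Set (Set α)) (h1 : ∀ c ∈ C, c.Countable)
    (h2 : ∀ s : Set α, s.Countable → ∃ c ∈ C, s ⊆ c) : cofc α ≤ #C :=
  csInf_le' ⟨C, rfl, h1, h2⟩

theorem cofc_mono {α β : Type} (f : α ↪ β) : cofc α ≤ cofc β := by
  obtain ⟨C, hC, h1, h2⟩ := cofc_spec β
  rw [← hC]
  refine (cofc_le ((fun c => f ⁻¹' c) '' C) ?_ ?_).trans mk_image_le
  · rintro _ ⟨c, hc, rfl⟩
    exact (h1 c hc).preimage f.injective
  · intro s hs
    obtain ⟨c, hc, hsc⟩ := h2 (f '' s) (hs.image f)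
    exact ⟨_, ⟨c, hc, rfl⟩, fun x hx => hsc ⟨x, hx, rfl⟩⟩

theorem cofc_congr {α β : Type} (h : #α = #β) : cofc α = cofc β := by
  obtain ⟨e⟩ := Cardinal.eq.1 h
  exact le_antisymm (cofc_mono e.toEmbedding) (cofc_mono e.symm.toEmbedding)

theorem cofc_out (α : Type) : cofc (#α).out = cofc α := cofc_congr (by simp)

theorem cofc_of_countable {α : Type} [Countable α] : cofc α ≤ 1 := by
  have h := cofc_le (α := α) ({Set.univ} : Set (Set α)) (by rintro _ rfl; exact countable_univ)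
    (fun s _ => ⟨Set.univ, rfl, subset_univ s⟩)
  simpa using h

/-- If `κ` has uncountable cofinality and all smaller covering numbers are at most `κ` then
the covering number of `κ` is at most `κ`. -/
theorem cofc_step {κ : Cardinal.{0}} (h0 : ℵ₀ < κ.ord.cof)
    (h : ∀ μ < κ, cofc μ.out ≤ κ) : cofc κ.out ≤ κ := by
  have hk0 : ℵ₀ ≤ κ := h0.le.trans (Ordinal.cof_ord_le κ)
  have e0 : cofc κ.out = cofc κ.ord.ToType := cofc_congr (by simp)
  rw [e0]
  choose C hC h1 h2 using fun t : κ.ord.ToType => cofc_spec (Iio t)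
  let D : Set (Set κ.ord.ToType) := ⋃ t, (fun c : Set (Iio t) => Subtype.val '' c) '' C t
  have hD1 : ∀ c ∈ D, c.Countable := by
    intro c hc
    obtain ⟨t, c', hc', rfl⟩ := mem_iUnion.1 hc
    exact (h1 t c' hc').image _
  have hD2 : ∀ s : Set κ.ord.ToType, s.Countable → ∃ c ∈ D, s ⊆ c := by
    intro s hs
    obtain ⟨t, ht⟩ := bounded_of_small (s := s) (by
      rw [Ordinal.cof_toType]
      exact (le_aleph0_iff_set_countable.2 hs).trans_lt h0)
    obtain ⟨c, hc, hsc⟩ := h2 t (Subtype.val ⁻¹' s) (hs.preimage Subtype.val_injective)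
    exact ⟨_, mem_iUnion.2 ⟨t, c, hc, rfl⟩, fun x hx => ⟨⟨x, ht x hx⟩, hsc hx, rfl⟩⟩
  refine (cofc_le D hD1 hD2).trans ?_
  refine (mk_iUnion_le _).trans ?_
  have h3 : ∀ t : κ.ord.ToType,
      #((fun c : Set (Iio t) => Subtype.val '' c) '' C t) ≤ κ := by
    intro t
    refine mk_image_le.trans ?_
    rw [hC, ← cofc_out]
    exact h _ (mkIio t)
  calc #κ.ord.ToType * ⨆ t, #((fun c : Set (Iio t) => Subtype.val '' c) '' C t) ≤ κ * κ :=
        mul_le_mul' (by simp) (ciSup_le' h3)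
    _ = κ := mul_eq_self hk0

/-- The covering numbers below `ℵ_ω` are small. -/
theorem cofc_aleph (n : ℕ) : cofc (ℵ_ (n : Ordinal.{0})).out ≤ ℵ_ (n : Ordinal.{0}) := by
  induction n with
  | zero =>
    have : Countable (ℵ_ ((0 : ℕ) : Ordinal.{0})).out := by
      rw [← mk_le_aleph0_iff]
      simp
    exact cofc_of_countable.trans (by simp)
  | succ n ih =>
    have h1 : ℵ_ ((n + 1 : ℕ) : Ordinal.{0}) = Order.succ (ℵ_ (n : Ordinal.{0})) := by
      rw [succ_aleph]
      congr 1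
    have hreg : (ℵ_ ((n + 1 : ℕ) : Ordinal.{0})).IsRegular := by
      rw [h1]
      exact isRegular_succ (aleph0_le_aleph _)
    refine cofc_step ?_ ?_
    · rw [hreg.cof_ord, h1]
      exact Order.lt_succ_iff.2 (aleph0_le_aleph _)
    · intro μ hμ
      rw [h1] at hμ ⊢
      have h2 : μ ≤ ℵ_ (n : Ordinal.{0}) := Order.lt_succ_iff.1 hμ
      have h3 : cofc μ.out ≤ cofc (ℵ_ (n : Ordinal.{0})).out := by
        have : #μ.out ≤ #(ℵ_ (n : Ordinal.{0})).out := by simpa using h2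
        obtain ⟨f⟩ := this
        exact cofc_mono f
      exact h3.trans (ih.trans (Order.le_succ _))

theorem exists_aleph {κ : Cardinal.{0}} (h0 : ℵ₀ ≤ κ) (h : κ < ℵ_ Ordinal.omega0) :
    ∃ n : ℕ, κ = ℵ_ (n : Ordinal.{0}) := by
  obtain ⟨o, rfl⟩ := (mem_range_aleph_iff).2 h0
  rw [aleph_lt_aleph] at h
  obtain ⟨n, rfl⟩ := Ordinal.lt_omega0.1 h
  exact ⟨n, rfl⟩

/-- Below `ℵ_ω`, the covering number of `μ` is at most `μ` or one. -/
theorem cofc_lt_aleph_omega {μ : Cardinal.{0}} (h : μ < ℵ_ Ordinal.omega0) :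
    cofc μ.out ≤ max ℵ₀ μ := by
  rcases le_or_gt ℵ₀ μ with h0 | h0
  · obtain ⟨n, rfl⟩ := exists_aleph h0 h
    exact (cofc_aleph n).trans (le_max_right _ _)
  · have : Countable μ.out := by
      rw [← mk_le_aleph0_iff]
      simpa using h0.le
    exact cofc_of_countable.trans (one_le_aleph0.trans (le_max_left _ _))

/-- Bartoszyński: fewer than `non(M)` functions are eventually different from one function. -/
theorem exists_ed {ι : Type} (hι : #ι < nonM) (f : ι → W) :
    ∃ g : W, ∀ i, ∀ᶠ n in atTop, g n ≠ f i n := by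
  have e1 : nonM = Pool.Agent.H42.IMeag.nonM := by
    unfold nonM Pool.Agent.H42.IMeag.nonM
    congr 1
    ext c
    constructor
    · rintro ⟨N, h1, h2⟩
      exact ⟨N, h2, h1⟩
    · rintro ⟨N, h1, h2⟩
      exact ⟨N, h2, h1⟩
  rw [e1] at hι
  obtain ⟨g, hg⟩ := Pool.Agent.H42.Slal1.evade hι (fun _ => 1) (fun i n => {f i n})
    (fun i n => by simp)
  refine ⟨g, fun i => (hg i).mono fun n h => ?_⟩
  simpa using h

end Pool.Agent.H633.BA
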