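import Pool.Agent.H633.BA.Cov

set_option autoImplicit false

/-!
Baumgartner axioms: the good set, each of whose countable subsets is relatively `G_δ` after
removing fewer than `κ` points.
-/

namespace Pool.Agent.H633.BA

open Cardinal Set Filter Pool.Agent.R592.Ba

/-- Each countable set is disjoint from countably many closed sets covering all but fewer than
`κ` points. -/
def Sep (κ : Cardinal.{0}) (Y : Type) [TopologicalSpace Y] : Prop :=
  ∀ D : Set Y, D.Countable → ∃ (E : Set Y) (F : ℕ → Set Y), #E < κ ∧ (∀ m, IsClosed (F m)) ∧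
    (∀ m, Disjoint D (F m)) ∧ ∀ y, y ∉ E → ∃ m, y ∈ F m

theorem sep_homeo {κ : Cardinal.{0}} {Y Z : Type} [TopologicalSpace Y] [TopologicalSpace Z]
    (φ : Y ≃ₜ Z) (h : Sep κ Y) : Sep κ Z := by
  intro D hD
  obtain ⟨E, F, h1, h2, h3, h4⟩ := h (φ ⁻¹' D) (hD.preimage φ.injective)
  refine ⟨φ '' E, fun m => φ '' (F m), (mk_image_le).trans_lt h1,
    fun m => φ.isClosedMap _ (h2 m), fun m => ?_, fun z hz => ?_⟩
  · rw [disjoint_left]
    rintro _ hd ⟨y, hy, rfl⟩
    exact disjoint_left.1 (h3 m) hd hy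
  · obtain ⟨m, hm⟩ := h4 (φ.symm z) (fun hc => hz ⟨_, hc, φ.apply_symm_apply z⟩)
    exact ⟨m, _, hm, φ.apply_symm_apply z⟩

/-- the function which catches all members of a countable family -/
def dg {I : Type} (g : I → W) (e : ℕ → I) : W := fun n => g (e n.unpair.1) n

theorem dg_catch {I : Type} (g : I → W) (e : ℕ → I) (i : ℕ) :
    ∃ᶠ n in atTop, dg g e n = g (e i) n := by
  rw [frequently_atTop]
  intro N
  refine ⟨Nat.pair i N, Nat.right_le_pair i N, ?_⟩
  simp [dg]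

/-- The recursion. -/
theorem exists_rec {κ : Cardinal.{0}} (hκ : κ < nonM) (h : ∀ μ < κ, cofc μ.out < nonM) :
    ∃ g : κ.ord.ToType → W, ∀ s : Set κ.ord.ToType, s.Countable → s.Nonempty →
      ∀ b, (∀ x ∈ s, x < b) → ∃ e : ℕ → κ.ord.ToType, s ⊆ range e ∧
        ∀ t, b ≤ t → ∀ᶠ n in atTop, g t n ≠ dg g e n := by
  classical
  choose C hC h1 h2 using fun t : κ.ord.ToType => cofc_spec (Iio t)
  -- enumerations
  have hen : ∀ (t : κ.ord.ToType) (c : {c : Set (Iio t) // c ∈ C t ∧ c.Nonempty}),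
      ∃ e : ℕ → Iio t, c.1 = range e := fun t c =>
    (h1 t c.1 c.2.1).exists_eq_range c.2.2
  choose en hn using hen
  have up : ∀ {t s : κ.ord.ToType}, s ≤ t → ∀ x : Iio s, (x : κ.ord.ToType) ∈ Iio t :=
    fun h x => lt_of_lt_of_le x.2 h
  let J : κ.ord.ToType → Type := fun t =>
    Σ s : Iic t, {c : Set (Iio (s : κ.ord.ToType)) // c ∈ C s ∧ c.Nonempty}
  have hJ : ∀ t, #(J t) < nonM := by
    intro t
    have e1 : ∀ s : Iic t, #{c : Set (Iio (s : κ.ord.ToType)) // c ∈ C s ∧ c.Nonempty} ≤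
        cofc (Iio t) := by
      intro s
      have e2 : #{c : Set (Iio (s : κ.ord.ToType)) // c ∈ C s ∧ c.Nonempty} ≤ #(C s) :=
        mk_le_mk_of_subset (s := {c | c ∈ C s ∧ c.Nonempty}) (t := C s) fun c hc => hc.1
      refine e2.trans ?_
      rw [hC]
      exact cofc_mono ⟨fun x => ⟨x.1, up s.2 x⟩, fun x y hxy =>
        Subtype.ext (congrArg (fun z : Iio t => (z : κ.ord.ToType)) hxy)⟩
    have e3 : #(Iic t) < nonM := by
      rw [← Iio_union_right]
      refine (mk_union_le _ _).trans_lt ?_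
      refine add_lt_of_lt aleph0_le_nonM ((mkIio t).trans hκ) ?_
      rw [mk_singleton]
      exact one_lt_aleph0.trans_le aleph0_le_nonM
    have e4 : cofc (Iio t) < nonM := by
      rw [← cofc_out]
      exact h _ (mkIio t)
    change #(Σ s : Iic t, {c : Set (Iio (s : κ.ord.ToType)) // c ∈ C s ∧ c.Nonempty}) < nonM
    rw [mk_sigma]
    refine (sum_le_mk_mul_iSup _).trans_lt ?_
    refine lt_of_le_of_lt (mul_le_mul' le_rfl (ciSup_le' e1)) ?_
    exact mul_lt_of_lt aleph0_le_nonM e3 e4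
  obtain ⟨g, hg⟩ := Pool.Agent.H42.TStar.rec_o (T := κ.ord.ToType) (σ := W)
    (fun t g x => ∀ j : J t, ∀ᶠ n in atTop,
      x n ≠ g ⟨en j.1 j.2 n.unpair.1, up j.1.2 (en j.1 j.2 n.unpair.1)⟩ n)
    (fun t g _ => exists_ed (hJ t) (fun (j : J t) n =>
      g ⟨en j.1 j.2 n.unpair.1, up j.1.2 (en j.1 j.2 n.unpair.1)⟩ n))
  refine ⟨g, fun s hs hne b hb => ?_⟩
  obtain ⟨c, hc, hsc⟩ := h2 b (Subtype.val ⁻¹' s) (hs.preimage Subtype.val_injective)
  have hcne : c.Nonempty := by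
    obtain ⟨x, hx⟩ := hne
    exact ⟨⟨x, hb x hx⟩, hsc hx⟩
  refine ⟨fun i => en b ⟨c, hc, hcne⟩ i, ?_, fun t hbt => ?_⟩
  · intro x hx
    have h3 : (⟨x, hb x hx⟩ : Iio b) ∈ c := hsc hx
    have h4 := hn b ⟨c, hc, hcne⟩
    change c = _ at h4
    rw [h4] at h3
    obtain ⟨i, hi⟩ := h3
    exact ⟨i, congrArg Subtype.val hi⟩
  · exact hg t ⟨⟨b, hbt⟩, ⟨c, hc, hcne⟩⟩

/-- The good set. -/
theorem exists_good {κ : Cardinal.{0}} (hcof : ℵ₀ < κ.ord.cof) (hκ : κ < nonM)
    (h : ∀ μ < κ, cofc μ.out < nonM) : ∃ E : Set W, KDense κ E ∧ Sep κ E := by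
  classical
  obtain ⟨g, hg⟩ := exists_rec hκ h
  have hk0 : ℵ₀ ≤ κ := hcof.le.trans (Ordinal.cof_ord_le κ)
  have hmk : #κ.ord.ToType = κ := mk_ord_toType κ
  -- a strict upper bound
  have hsucc : ∀ s : Set κ.ord.ToType, s.Countable → ∃ b, ∀ x ∈ s, x < b := by
    intro s hs
    refine bounded_of_small ?_
    rw [Ordinal.cof_toType]
    exact (le_aleph0_iff_set_countable.2 hs).trans_lt hcof
  have hinj0 : ∀ a b : κ.ord.ToType, a < b → ¬ ∀ᶠ n in atTop, g a n = g b n := by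
    intro a b hab hcon
    obtain ⟨e, he, ht⟩ := hg {a} (countable_singleton a) (singleton_nonempty a) b
      (by rintro _ rfl; exact hab)
    obtain ⟨i, hi⟩ := he rfl
    have h1 := dg_catch g e i
    obtain ⟨n, hn1, hn2, hn3⟩ := (h1.and_eventually (hcon.and (ht b le_rfl))).exists
    apply hn3
    rw [← hn2, hn1, hi]
  have hinj : ∀ a b : κ.ord.ToType, (∀ᶠ n in atTop, g a n = g b n) → a = b := by
    intro a b hab
    rcases lt_trichotomy a b with h1 | h1 | h1
    · exact absurd hab (hinj0 a b h1)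
    · exact h1
    · exact absurd (hab.mono fun n hn => hn.symm) (hinj0 b a h1)
  have hkd := Pool.Agent.H42.Bau.kd_md g (by rw [hmk]; exact hk0) hinj
  rw [hmk] at hkd
  refine ⟨Pool.Agent.H42.Bau.Md g Set.univ, hkd, ?_⟩
  intro D hD
  -- indices
  choose a _ ha using fun y : Pool.Agent.H42.Bau.Md g Set.univ => y.2
  rcases D.eq_empty_or_nonempty with rfl | hDne
  · refine ⟨∅, fun _ => Set.univ, ?_, fun _ => isClosed_univ, fun _ => empty_disjoint _,
      fun y _ => ⟨0, mem_univ y⟩⟩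
    rw [mk_eq_zero]
    exact aleph0_pos.trans_le hk0
  obtain ⟨b, hb⟩ := hsucc (a '' D) (hD.image a)
  obtain ⟨e, he, ht⟩ := hg (a '' D) (hD.image a) (hDne.image a) b hb
  refine ⟨{y | a y < b}, fun m => {y | ∀ n, m ≤ n → (y : W) n ≠ dg g e n}, ?_, ?_, ?_, ?_⟩
  · have h1 : #{y : Pool.Agent.H42.Bau.Md g Set.univ | a y < b} ≤
        #(Pool.Agent.H42.Bau.Md g (Iio b)) := by
      refine mk_le_of_injective (f := fun y => (⟨(y.1 : W), a y.1, y.2, ha y.1⟩ :
        Pool.Agent.H42.Bau.Md g (Iio b))) ?_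
      intro y z hyz
      have h5 : ((y : Pool.Agent.H42.Bau.Md g Set.univ) : W) = (z.1 : W) :=
        congrArg (fun w : Pool.Agent.H42.Bau.Md g (Iio b) => (w : W)) hyz
      exact Subtype.ext (Subtype.ext h5)
    refine h1.trans_lt ((Pool.Agent.H42.Bau.md_le g _).trans_lt ?_)
    exact mul_lt_of_lt hk0 (mkIio b) (hcof.trans_le (Ordinal.cof_ord_le κ))
  · intro m
    have h1 : {y : Pool.Agent.H42.Bau.Md g Set.univ | ∀ n, m ≤ n → (y : W) n ≠ dg g e n} =
        ⋂ n, ⋂ _ : m ≤ n, (fun y : Pool.Agent.H42.Bau.Md g Set.univ => (y : W) n) ⁻¹'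
          {k | k ≠ dg g e n} := by
      ext y
      simp
    change IsClosed {y : Pool.Agent.H42.Bau.Md g Set.univ | ∀ n, m ≤ n → (y : W) n ≠ dg g e n}
    rw [h1]
    exact isClosed_iInter fun n => isClosed_iInter fun _ =>
      (isClosed_discrete _).preimage ((continuous_apply n).comp continuous_subtype_val)
  · intro m
    rw [disjoint_left]
    intro y hyD hy
    obtain ⟨i, hi⟩ := he ⟨y, hyD, rfl⟩
    obtain ⟨n, hn1, hn2, hn3⟩ := ((dg_catch g e i).and_eventually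
      ((ha y).and (eventually_ge_atTop m))).exists
    apply hy n hn3
    rw [hn2, hn1, hi]
  · intro y hy
    have h1 : b ≤ a y := not_lt.1 hy
    obtain ⟨m, hm⟩ := eventually_atTop.1 ((ht _ h1).and (ha y))
    refine ⟨m, fun n hn => ?_⟩
    rw [(hm n hn).2]
    exact (hm n hn).1

end Pool.Agent.H633.BA
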