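import Pool.Agent.H633.BA.Good

set_option autoImplicit false

/-!
Baumgartner axioms: a set which is not separated, and the main theorem.
-/

namespace Pool.Agent.H633.BA

open Cardinal Set Filter Pool.Agent.R592.Ba

/-- If `𝔟 ≤ κ` then some `κ`-dense set is not separated. -/
theorem exists_bad {κ : Cardinal.{0}} (hb : bnum ≤ κ) (hc : κ ≤ 𝔠) {A : Set X}
    (hA : KDense κ A) : ∃ B : Set X, KDense κ B ∧ ¬ Sep κ B := by
  classical
  obtain ⟨e, he, hd, hQc, hQd, hK⟩ := emb_thm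
  have hb0 : ℵ₀ < bnum := b_facts.1
  have hk0 : ℵ₀ ≤ κ := hb0.le.trans hb
  obtain ⟨U, hU, hunb⟩ := Pool.Agent.R172.Ba.bnum_mem
  obtain ⟨x⟩ : Nonempty (κ.out ↪ X) := by
    rw [← Cardinal.le_def, mk_out, mk_X]
    exact hc
  let v : W → κ.out → W := fun u t n => 2 * u n + (if x t n then 1 else 0)
  have hvinj : ∀ u, Function.Injective (v u) := by
    intro u t t' htt
    apply x.injective
    funext n
    have h1 := congrFun htt n
    simp only [v] at h1
    by_cases h2 : x t n = true <;> by_cases h3 : x t' n = true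
    · rw [h2, h3]
    · simp [h2, h3] at h1
    · simp [h2, h3] at h1
    · simp only [Bool.not_eq_true] at h2 h3
      rw [h2, h3]
  set Q : Set X := (range e)ᶜ with hQ
  let Y : Set X := ⋃ u : U, (fun t => e (v u t)) '' Set.univ
  have hY : #Y ≤ κ := by
    refine (mk_iUnion_le _).trans ?_
    calc #U * ⨆ u : U, #((fun t => e (v u t)) '' Set.univ) ≤ κ * κ := by
          refine mul_le_mul' (by rw [hU]; exact hb) (ciSup_le' fun u => mk_image_le.trans ?_)
          simp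
      _ = κ := mul_eq_self hk0
  have hAκ : #A = κ := by
    have h1 := hA Set.univ isOpen_univ ⟨fun _ => true, trivial⟩
    rwa [inter_univ] at h1
  refine ⟨A ∪ (Q ∪ Y), ?_, ?_⟩
  · intro O hO hne
    apply le_antisymm
    · refine (mk_le_mk_of_subset inter_subset_left).trans ((mk_union_le _ _).trans ?_)
      calc #A + #(Q ∪ Y : Set X) ≤ κ + (κ + κ) :=
            add_le_add hAκ.le ((mk_union_le _ _).trans
              (add_le_add ((le_aleph0_iff_set_countable.2 hQc).trans hk0) hY))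
        _ = κ := by rw [add_eq_self hk0, add_eq_self hk0]
    · exact (hA O hO hne).ge.trans (mk_le_mk_of_subset
        (inter_subset_inter_left _ subset_union_left))
  · intro hsep
    have hQB : Q ⊆ A ∪ (Q ∪ Y) := fun y hy => Or.inr (Or.inl hy)
    obtain ⟨E, F, hE, hF, hdis, hcov⟩ := hsep (Subtype.val ⁻¹' Q)
      (hQc.preimage Subtype.val_injective)
    have h1 : ∀ m, ∃ K : Set X, IsClosed K ∧ Subtype.val ⁻¹' K = F m := fun m =>
      isClosed_induced_iff.1 (hF m)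
    choose K hKc hKF using h1
    have h2 : ∀ m, K m ⊆ range e := by
      intro m y hy
      by_contra hcon
      have h3 : (⟨y, hQB hcon⟩ : (A ∪ (Q ∪ Y) : Set X)) ∈ F m := by
        rw [← hKF]
        exact hy
      exact disjoint_left.1 (hdis m) hcon h3
    choose g hg using fun m => hK (K m) (hKc m) (h2 m)
    obtain ⟨G, hG⟩ := Pool.Agent.R172.Ba.bd_ctble g
    apply hunb
    refine ⟨G, fun u hu => ?_⟩
    -- some variation is not exceptional
    have h4 : ∃ t : κ.out, ∀ (h : e (v u t) ∈ A ∪ (Q ∪ Y)), (⟨e (v u t), h⟩ :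
        (A ∪ (Q ∪ Y) : Set X)) ∉ E := by
      by_contra hcon
      push Not at hcon
      choose h5 h6 using hcon
      have h7 : #κ.out ≤ #E := by
        refine mk_le_of_injective (f := fun t => (⟨_, h6 t⟩ : E)) ?_
        intro t t' htt
        have h8 : e (v u t) = e (v u t') :=
          congrArg (fun w : E => ((w : (A ∪ (Q ∪ Y) : Set X)) : X)) htt
        exact hvinj u (he.injective h8)
      rw [mk_out] at h7
      exact absurd hE (not_lt.2 h7)
    obtain ⟨t, ht⟩ := h4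
    have hmem : e (v u t) ∈ A ∪ (Q ∪ Y) :=
      Or.inr (Or.inr (mem_iUnion.2 ⟨⟨u, hu⟩, t, trivial, rfl⟩))
    obtain ⟨m, hm⟩ := hcov ⟨_, hmem⟩ (ht hmem)
    rw [← hKF] at hm
    have h9 := hg m (v u t) hm
    have h10 := hG m
    unfold LeStar at h10 ⊢
    refine h10.mono fun n hn => ?_
    have h11 := h9 n
    simp only [v] at h11
    omega

/-- **Main theorem.** -/
theorem main {κ : Cardinal.{0}} (hcof : ℵ₀ < κ.ord.cof) (hc : κ ≤ 𝔠)
    (hcov : ∀ μ < κ, cofc μ.out < nonM) (h : BAm κ X) : κ < bnum := by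
  have hk0 : ℵ₀ ≤ κ := hcof.le.trans (Ordinal.cof_ord_le κ)
  have hκ : κ < nonM := Pool.Agent.R734.Ba.meag κ hk0 hc h
  by_contra hcon
  rw [not_lt] at hcon
  obtain ⟨E, hE1, hE2⟩ := exists_good hcof hκ hcov
  obtain ⟨e, he, hd, hQc, hQd, hK⟩ := emb_thm
  have hA : KDense κ (e '' E) := Pool.Agent.R150.Ba.kdense_embed he hd hE1
  obtain ⟨B, hB1, hB2⟩ := exists_bad hcon hc hA
  obtain ⟨φ⟩ := h _ _ hA hB1
  exact hB2 (sep_homeo ((he.homeomorphImage E).trans φ) hE2)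

/-- The covering hypothesis below `ℵ_ω`. -/
theorem cov_of_lt {κ : Cardinal.{0}} (h0 : ℵ₀ < κ) (hκ : κ < nonM)
    (h : κ < ℵ_ Ordinal.omega0) : ℵ₀ < κ.ord.cof ∧ ∀ μ < κ, cofc μ.out < nonM := by
  constructor
  · obtain ⟨n, rfl⟩ := exists_aleph h0.le h
    cases n with
    | zero => simp at h0
    | succ n =>
      have h1 : ℵ_ ((n + 1 : ℕ) : Ordinal.{0}) = Order.succ (ℵ_ (n : Ordinal.{0})) := by
        rw [succ_aleph]
        congr 1
      rw [h1, (isRegular_succ (aleph0_le_aleph _)).cof_ord]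
      exact Order.lt_succ_iff.2 (aleph0_le_aleph _)
  · intro μ hμ
    refine (cofc_lt_aleph_omega (hμ.trans h)).trans_lt ?_
    exact max_lt (h0.trans hκ) (hμ.trans hκ)

theorem main_aleph {κ : Cardinal.{0}} (h0 : ℵ₀ < κ) (hc : κ ≤ 𝔠)
    (hκ : κ < ℵ_ Ordinal.omega0) (h : BAm κ X) : κ < bnum := by
  have h1 : κ < nonM := Pool.Agent.R734.Ba.meag κ h0.le hc h
  obtain ⟨h2, h3⟩ := cov_of_lt h0 h1 hκ
  exact main h2 hc h3 h

theorem bN_eq : Pool.Agent.H42.IMeag.bN = bnum := by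
  unfold Pool.Agent.H42.IMeag.bN bnum
  congr 1
  ext c
  constructor
  · rintro ⟨F, h1, h2⟩
    refine ⟨F, h2, ?_⟩
    rintro ⟨g, hg⟩
    obtain ⟨f, hf, hfr⟩ := h1 g
    obtain ⟨n, hn1, hn2⟩ := (hfr.and_eventually (hg f hf)).exists
    omega
  · rintro ⟨F, h1, h2⟩
    refine ⟨F, fun g => ?_, h1⟩
    by_contra hcon
    push Not at hcon
    exact h2 ⟨g, fun f hf => (hcon f hf)⟩

/-- The region of the cardinals which remain open. -/
theorem remaining {κ : Cardinal.{0}} (h0 : ℵ₀ < κ) (hc : κ < 𝔠) (h : BAm κ X) :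
    κ < bnum ∨ (bnum < κ ∧ Pool.Agent.H42.Bau.covM < κ ∧ κ < nonM ∧ ℵ_ Ordinal.omega0 ≤ κ ∧
      (κ.ord.cof = ℵ₀ ∨ ∃ μ < κ, nonM ≤ cofc μ.out)) := by
  rcases lt_or_ge κ bnum with h1 | h1
  · exact Or.inl h1
  refine Or.inr ?_
  have h2 : κ < nonM := Pool.Agent.R734.Ba.meag κ h0.le hc.le h
  obtain ⟨A, hA⟩ := Pool.Agent.H42.Bau.ex_kd h0.le hc.le
  obtain ⟨h3, h4⟩ := Pool.Agent.H42.Bau.lt_b h0.le hA h
  rw [bN_eq] at h4
  have h5 : ¬ κ ≤ max bnum Pool.Agent.H42.Bau.covM := fun h6 => absurd (h4 h6) (not_lt.2 h1)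
  rw [not_le, max_lt_iff] at h5
  refine ⟨h5.1, h5.2, h2, ?_, ?_⟩
  · by_contra h6
    exact absurd (main_aleph h0 hc.le (not_le.1 h6) h) (not_lt.2 h1)
  · by_contra h6
    push Not at h6
    obtain ⟨h7, h8⟩ := h6
    have h9 : ℵ₀ < κ.ord.cof := by
      refine lt_of_le_of_ne ?_ (Ne.symm h7)
      rw [Ordinal.aleph0_le_cof_iff, Ordinal.one_lt_cof_iff]
      exact isSuccLimit_ord h0.le
    exact absurd (main h9 hc.le h8 h) (not_lt.2 h1)

/-- The equivalence of the weak and the full axiom. -/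
theorem equiv {κ : Cardinal.{0}} (hκ : κ < ℵ_ Ordinal.omega0 ∨
      (ℵ₀ < κ.ord.cof ∧ ∀ μ < κ, cofc μ.out < nonM)) :
    (BAm κ X ↔ BA κ X) ∧ (BAm κ W ↔ BA κ W) := by
  by_cases hb : κ ≤ bnum
  · exact equiv_thm κ (Or.inl hb)
  rcases lt_or_ge 𝔠 κ with hbig | hc
  · have h1 : BA κ X := ba_of_large (by rw [mk_X]; exact hbig)
    have h2 : BA κ W := ba_of_large (by rw [mk_W]; exact hbig)
    exact ⟨⟨fun _ => h1, bam_of_ba⟩, ⟨fun _ => h2, bam_of_ba⟩⟩
  have hX : ¬ BAm κ X := by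
    intro h
    rcases hκ with h1 | ⟨h1, h2⟩
    · exact hb (main_aleph (b_facts.1.trans (not_le.1 hb)) hc h1 h).le
    · exact hb (main h1 hc h2 h).le
  have hW : ¬ BAm κ W := by
    rcases hc.lt_or_eq with hlt | hEq
    · exact fun h => hX (Pool.Agent.R150.Ba.wToX emb_thm κ hlt h)
    · rw [hEq]; exact Pool.Agent.R676.Ba.wCont
  exact ⟨⟨fun h => absurd h hX, bam_of_ba⟩, ⟨fun h => absurd h hW, bam_of_ba⟩⟩

end Pool.Agent.H633.BA
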